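import Pool.Agent.Helper72K9.AB.St

/-!
# The height and the Mahler measure
-/

set_option autoImplicit false

open NumberField Module Polynomial IntermediateField

namespace Pool.Agent.Helper55K9.AB

open Pool.Agent.Helper72K9.AB

/-- sums over embeddings of functions of the value at `x` -/
theorem sum_alg (F N : Type) [Field F] [Field N] [Algebra F N] [FiniteDimensional F N]
    [Algebra.IsSeparable F N] [Algebra F ℂ] (x : N) (g : ℂ → ℝ) :
    ∑ τ : N →ₐ[F] ℂ, g (τ x) =
      (finrank F⟮x⟯ N : ℝ) * (((minpoly F x).aroots ℂ).map g).sum := by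
  classical
  have hx : IsIntegral F x := Algebra.IsIntegral.isIntegral x
  have h2 : ∑ τ : N →ₐ[F] ℂ, g (τ x) =
      ∑ s : (Σ f : F⟮x⟯ →ₐ[F] ℂ, @AlgHom F⟮x⟯ N ℂ _ _ _ _ f.toRingHom.toAlgebra),
        g (s.1 (AdjoinSimple.gen F x)) := by
    refine Fintype.sum_equiv (algHomEquivSigma (A := F) (B := F⟮x⟯) (C := N) (D := ℂ)) _ _ fun τ => ?_
    rfl
  rw [h2, ← Finset.univ_sigma_univ, Finset.sum_sigma]
  have h3 : ∀ f : F⟮x⟯ →ₐ[F] ℂ, ∑ s : @AlgHom F⟮x⟯ N ℂ _ _ _ _ f.toRingHom.toAlgebra,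
      g (f (AdjoinSimple.gen F x)) = (finrank F⟮x⟯ N : ℝ) * g (f (AdjoinSimple.gen F x)) := by
    intro f
    let : Algebra F⟮x⟯ ℂ := f.toRingHom.toAlgebra
    rw [Finset.sum_const, Finset.card_univ, nsmul_eq_mul]
    congr 2
    exact AlgHom.card F⟮x⟯ N ℂ
  rw [Finset.sum_congr rfl fun f _ => h3 f, ← Finset.mul_sum]
  congr 1
  have hnd : ((minpoly F x).aroots ℂ).Nodup :=
    nodup_aroots_iff_of_splits (minpoly.ne_zero hx) (IsAlgClosed.splits _) |>.2
      (Algebra.IsSeparable.isSeparable F x)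
  have h4 : ∑ f : F⟮x⟯ →ₐ[F] ℂ, g (f (AdjoinSimple.gen F x)) =
      ∑ r : { y // y ∈ (minpoly F x).aroots ℂ }, g r := by
    refine (Fintype.sum_equiv (algHomAdjoinIntegralEquiv F hx).symm _ _ fun r => ?_).symm
    rw [algHomAdjoinIntegralEquiv_symm_apply_gen]
  rw [h4]
  have h5 : ((minpoly F x).aroots ℂ).map g = (((minpoly F x).aroots ℂ).toFinset.val).map g := by
    rw [Multiset.toFinset_val, hnd.dedup]
  rw [h5]
  change _ = ∑ r ∈ ((minpoly F x).aroots ℂ).toFinset, g r
  exact (Finset.sum_subtype _ (fun y => Multiset.mem_toFinset) g).symm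

/-- sums over embeddings of functions of the value at `x` -/
theorem sum_emb (N : Type) [Field N] [NumberField N] (x : N) (g : ℂ → ℝ) :
    ∑ τ : N →+* ℂ, g (τ x) =
      (finrank ℚ⟮x⟯ N : ℝ) * (((minpoly ℚ x).aroots ℂ).map g).sum := by
  have h1 : ∑ τ : N →+* ℂ, g (τ x) = ∑ τ : N →ₐ[ℚ] ℂ, g (τ x) :=
    Fintype.sum_equiv (RingHom.equivRatAlgHom (R := N) (S := ℂ)) _ _ fun τ => rfl
  rw [h1]
  exact sum_alg ℚ N x g

theorem hm : S_HM := by
  intro N _ _ x z hz hx
  have hzQ : minpoly ℚ z = (minpoly ℤ z).map (algebraMap ℤ ℚ) :=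
    minpoly.isIntegrallyClosed_eq_field_fractions' ℚ hz
  have hxQ : minpoly ℚ x = minpoly ℚ z := by
    symm
    refine minpoly.eq_of_irreducible_of_monic (minpoly.irreducible hz.tower_top) ?_
      (minpoly.monic hz.tower_top)
    rw [hzQ, aeval_map_algebraMap]
    exact hx
  have hdeg : (minpoly ℤ z).natDegree = finrank ℚ ℚ⟮x⟯ := by
    rw [IntermediateField.adjoin.finrank (Algebra.IsIntegral.isIntegral x), hxQ, hzQ,
      (minpoly.monic hz).natDegree_map]
  have h1 : HN N x = (finrank ℚ⟮x⟯ N : ℝ) *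
      (((minpoly ℚ x).aroots ℂ).map fun w => Real.log (max 1 ‖w‖)).sum :=
    sum_emb N x fun w => Real.log (max 1 ‖w‖)
  have h2 : Real.log (MM z) = (((minpoly ℚ x).aroots ℂ).map fun w => Real.log (max 1 ‖w‖)).sum := by
    unfold MM
    rw [mahlerMeasure_eq_leadingCoeff_mul_prod_roots]
    have h3 : ((minpoly ℤ z).map (Int.castRingHom ℂ)).leadingCoeff = 1 :=
      ((minpoly.monic hz).map _)
    have h4 : ((minpoly ℤ z).map (Int.castRingHom ℂ)) = (minpoly ℚ x).map (algebraMap ℚ ℂ) := by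
      rw [hxQ, hzQ, Polynomial.map_map]
      congr 1
    rw [h3, norm_one, one_mul, h4]
    have h5 : ∀ s : Multiset ℂ, Real.log (s.map fun a => max 1 ‖a‖).prod =
        (s.map fun w => Real.log (max 1 ‖w‖)).sum := by
      intro s
      induction s using Multiset.induction_on with
      | empty => simp
      | cons a s ih =>
        rw [Multiset.map_cons, Multiset.prod_cons, Multiset.map_cons, Multiset.sum_cons, ← ih]
        refine Real.log_mul (by positivity) ?_
        refine Multiset.prod_ne_zero fun h => ?_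
        obtain ⟨b, -, hb⟩ := Multiset.mem_map.1 h
        have : 0 < max 1 ‖b‖ := lt_max_of_lt_left one_pos
        exact this.ne' hb
    exact h5 _
  rw [h1, h2, hdeg, ← mul_assoc]
  congr 1
  rw [← Nat.cast_mul, Module.finrank_mul_finrank]

end Pool.Agent.Helper55K9.AB
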