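import Pool.Agent.Helper72K9.AB.St

/-!
# Minimal polynomials of integers
-/

set_option autoImplicit false

open NumberField Module Polynomial IntermediateField

namespace Pool.Agent.Helper55K9.AB

open Pool.Agent.Helper72K9.AB

theorem fint : S_FINT := by
  intro L N _ _ _ _ _ z
  have hz : IsIntegral (𝓞 L) (z : N) := by
    have h1 : IsIntegral ℤ (z : N) := z.isIntegral_coe
    exact h1.tower_top
  refine ⟨minpoly (𝓞 L) (z : N), ?_, minpoly.monic hz, ?_⟩
  · exact (minpoly.isIntegrallyClosed_eq_field_fractions' L hz).symm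
  · have h1 : aeval (z : N) (minpoly (𝓞 L) (z : N)) = 0 := minpoly.aeval _ _
    have h2 : algebraMap (𝓞 N) N (aeval z (minpoly (𝓞 L) (z : N))) = 0 := by
      rw [← aeval_algebraMap_apply]
      exact h1
    exact (map_eq_zero_iff _ (FaithfulSMul.algebraMap_injective (𝓞 N) N)).1 h2

end Pool.Agent.Helper55K9.AB
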