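import Pool.Agent.Helper72K9.AB.St

/-!
# Conjugate polynomials
-/

set_option autoImplicit false

open NumberField Module Polynomial IntermediateField

namespace Pool.Agent.Helper55K9.AB

open Pool.Agent.Helper72K9.AB

theorem roots : S_ROOTS := by
  intro K L N _ _ _ _ _ _ _ _ _ _ _ _ z σ
  have hNL : IsGalois L N := IsGalois.tower_top_of_isGalois K L N
  have hz : IsIntegral L z := Algebra.IsIntegral.isIntegral z
  set f := minpoly L z with hf
  have hsp : (f.map (algebraMap L N)).Splits := Normal.splits inferInstance z
  have hcard : Multiset.card (f.map (algebraMap L N)).roots = f.natDegree := by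
    rw [splits_iff_card_roots.1 hsp, natDegree_map]
  obtain ⟨l, hl⟩ : ∃ l : List N, (l : Multiset N) = (f.map (algebraMap L N)).roots :=
    ⟨_, Multiset.coe_toList _⟩
  have hlen : l.length = f.natDegree := by
    rw [← hcard, ← hl, Multiset.coe_card]
  have hprod : f.map (algebraMap L N) =
      ∏ i : Fin f.natDegree, (X - C (l.get (i.cast hlen.symm))) := by
    have h1 := hsp.eq_prod_roots_of_monic ((minpoly.monic hz).map _)
    rw [← hl, Multiset.map_coe, Multiset.prod_coe] at h1
    rw [h1, ← List.prod_ofFn]
    congr 1
    refine List.ext_get ?_ ?_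
    · rw [List.length_map, List.length_ofFn, hlen]
    · intro n h2 h3
      simp
  have ht : ∀ i : Fin f.natDegree, ∃ t : Gal(N/L), t z = l.get (i.cast hlen.symm) := by
    intro i
    have h1 : l.get (i.cast hlen.symm) ∈ (f.map (algebraMap L N)).roots := by
      rw [← hl]
      exact Multiset.mem_coe.2 (List.get_mem _ _)
    have h2 : aeval (l.get (i.cast hlen.symm)) f = 0 := by
      have h3 := (mem_roots'.1 h1).2
      rwa [IsRoot.def, eval_map_algebraMap] at h3
    exact minpoly.exists_algEquiv_of_root' hz.isAlgebraic h2
  choose t ht using ht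
  set σ' : Gal(N/K) := σ.liftNormal N with hσ'
  have hσL : ∀ x : L, σ' (algebraMap L N x) = algebraMap L N (σ x) := fun x =>
    σ.liftNormal_commutes N x
  refine ⟨fun i => ((t i).restrictScalars K).trans σ', ?_, ?_⟩
  · intro i x
    simp only [AlgEquiv.trans_apply, AlgEquiv.restrictScalars_apply, AlgEquiv.commutes]
    exact hσL x
  · have h1 : (f.map (σ : L →+* L)).map (algebraMap L N) =
        (f.map (algebraMap L N)).map (σ' : N →+* N) := by
      rw [Polynomial.map_map, Polynomial.map_map]
      congr 1
      ext x
      exact (hσL x).symm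
    rw [h1, hprod, Polynomial.map_prod]
    refine Finset.prod_congr rfl fun i _ => ?_
    rw [Polynomial.map_sub, Polynomial.map_X, Polynomial.map_C]
    congr 2
    rw [← ht i]
    rfl

end Pool.Agent.Helper55K9.AB
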