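import Pool.Agent.Helper72K9.AB.St

/-!
# Heights of powers, the upper bound for norms
-/

set_option autoImplicit false

open NumberField Module Polynomial IntermediateField

namespace Pool.Agent.Helper55K9.AB

open Pool.Agent.Helper72K9.AB

theorem hp : S_HP := by
  intro N _ _ x k
  refine ⟨?_, ?_⟩
  · unfold HN
    rw [Finset.mul_sum]
    refine Finset.sum_congr rfl fun τ _ => ?_
    rw [← Real.log_pow]
    congr 1
    rw [map_pow, norm_pow]
    rcases le_total ‖τ x‖ 1 with h | h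
    · rw [max_eq_left h, one_pow, max_eq_left (pow_le_one₀ (norm_nonneg _) h)]
    · rw [max_eq_right h, max_eq_right (one_le_pow₀ h)]
  · unfold HN
    exact Finset.sum_nonneg fun τ _ => Real.log_nonneg (le_max_left _ _)

theorem HN_equiv (N : Type) [Field N] [NumberField N] (x : N) (g : N ≃+* N) :
    HN N (g x) = HN N x := by
  unfold HN
  let e : (N →+* ℂ) ≃ (N →+* ℂ) :=
    { toFun := fun τ => τ.comp (g : N →+* N)
      invFun := fun τ => τ.comp (g.symm : N →+* N)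
      left_inv := fun τ => by ext y; simp
      right_inv := fun τ => by ext y; simp }
  refine Fintype.sum_equiv e _ _ fun τ => ?_
  rfl

theorem one_le {A B : ℝ} (hA : 0 ≤ A) (hB : 0 ≤ B) {a b : ℕ} (h0 : A ^ a + B ^ b ≠ 0) :
    Real.log (A ^ a + B ^ b) ≤ Real.log 2 + a * Real.log (max 1 A) + b * Real.log (max 1 B) := by
  have h1 : A ^ a ≤ (max 1 A) ^ a := pow_le_pow_left₀ hA (le_max_right _ _) a
  have h2 : B ^ b ≤ (max 1 B) ^ b := pow_le_pow_left₀ hB (le_max_right _ _) b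
  have h3 : 1 ≤ (max 1 A) ^ a := one_le_pow₀ (le_max_left _ _)
  have h4 : 1 ≤ (max 1 B) ^ b := one_le_pow₀ (le_max_left _ _)
  have h5 : A ^ a + B ^ b ≤ 2 * (max 1 A) ^ a * (max 1 B) ^ b := by
    nlinarith
  have h6 : 0 < A ^ a + B ^ b := lt_of_le_of_ne (by positivity) (Ne.symm h0)
  have h7 := Real.log_le_log h6 h5
  rw [Real.log_mul (by positivity) (by positivity), Real.log_mul (by norm_num) (by positivity),
    Real.log_pow, Real.log_pow] at h7
  exact h7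

theorem size : S_SIZE := by
  intro N _ _ x D a b g hne
  have h1 : (algebraMap ℚ ℂ) (Algebra.norm ℚ (∏ i, (x ^ a - (g i x) ^ b))) =
      ∏ τ : N →ₐ[ℚ] ℂ, τ (∏ i, (x ^ a - (g i x) ^ b)) := Algebra.norm_eq_prod_embeddings ℚ ℂ _
  have h2 : |((Algebra.norm ℚ (∏ i, (x ^ a - (g i x) ^ b)) : ℚ) : ℝ)| =
      ∏ τ : N →+* ℂ, ∏ i, ‖(τ x) ^ a - (τ (g i x)) ^ b‖ := by
    have h3 : ((Algebra.norm ℚ (∏ i, (x ^ a - (g i x) ^ b)) : ℚ) : ℂ) =
        ∏ τ : N →+* ℂ, τ (∏ i, (x ^ a - (g i x) ^ b)) := by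
      have h4 : ∏ τ : N →ₐ[ℚ] ℂ, τ (∏ i, (x ^ a - (g i x) ^ b)) =
          ∏ τ : N →+* ℂ, τ (∏ i, (x ^ a - (g i x) ^ b)) :=
        Fintype.prod_equiv (RingHom.equivRatAlgHom (R := N) (S := ℂ)).symm _ _ fun τ => rfl
      rw [← h4, ← h1]
      simp
    have h5 := congrArg norm h3
    rw [norm_prod] at h5
    have h6 : ‖((Algebra.norm ℚ (∏ i, (x ^ a - (g i x) ^ b)) : ℚ) : ℂ)‖ =
        |((Algebra.norm ℚ (∏ i, (x ^ a - (g i x) ^ b)) : ℚ) : ℝ)| := by
      rw [← Complex.ofReal_ratCast, Complex.norm_real, Real.norm_eq_abs]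
    rw [← h6, h5]
    refine Finset.prod_congr rfl fun τ _ => ?_
    rw [map_prod, norm_prod]
    refine Finset.prod_congr rfl fun i _ => ?_
    rw [map_sub, map_pow, map_pow]
  have hne' : ∀ (τ : N →+* ℂ) (i : Fin D), (τ x) ^ a - (τ (g i x)) ^ b ≠ 0 := by
    intro τ i h
    have h3 : x ^ a - (g i x) ^ b ≠ 0 := Finset.prod_ne_zero_iff.1 hne i (Finset.mem_univ i)
    apply h3
    rw [← map_pow, ← map_pow, ← map_sub] at h
    exact (map_eq_zero τ).1 h
  rw [h2, Real.log_prod (fun τ _ => Finset.prod_ne_zero_iff.2 fun i _ =>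
    norm_ne_zero_iff.2 (hne' τ i))]
  have h3 : ∀ τ : N →+* ℂ, Real.log (∏ i, ‖(τ x) ^ a - (τ (g i x)) ^ b‖) ≤
      ∑ i : Fin D, (Real.log 2 + a * Real.log (max 1 ‖τ x‖) + b * Real.log (max 1 ‖τ (g i x)‖)) := by
    intro τ
    rw [Real.log_prod (fun i _ => norm_ne_zero_iff.2 (hne' τ i))]
    refine Finset.sum_le_sum fun i _ => ?_
    have h4 : ‖(τ x) ^ a - (τ (g i x)) ^ b‖ ≤ ‖τ x‖ ^ a + ‖τ (g i x)‖ ^ b := by
      refine (norm_sub_le _ _).trans ?_
      rw [norm_pow, norm_pow]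
    have h5 : 0 < ‖(τ x) ^ a - (τ (g i x)) ^ b‖ := norm_pos_iff.2 (hne' τ i)
    exact (Real.log_le_log h5 h4).trans (one_le (norm_nonneg _) (norm_nonneg _)
      (h5.trans_le h4).ne')
  refine (Finset.sum_le_sum fun τ _ => h3 τ).trans ?_
  rw [Finset.sum_comm]
  have h4 : ∀ i : Fin D, ∑ τ : N →+* ℂ, (Real.log 2 + a * Real.log (max 1 ‖τ x‖) +
      b * Real.log (max 1 ‖τ (g i x)‖)) = (finrank ℚ N : ℝ) * Real.log 2 + ((a : ℝ) + b) * HN N x := by
    intro i
    rw [Finset.sum_add_distrib, Finset.sum_add_distrib, ← Finset.mul_sum, ← Finset.mul_sum,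
      Finset.sum_const, Finset.card_univ, NumberField.Embeddings.card, nsmul_eq_mul]
    have h5 := HN_equiv N x (g i)
    unfold HN at h5 ⊢
    rw [h5]
    ring
  rw [Finset.sum_congr rfl fun i _ => h4 i, Finset.sum_const, Finset.card_univ, Fintype.card_fin,
    nsmul_eq_mul]
  apply le_of_eq
  ring

end Pool.Agent.Helper55K9.AB
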